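import Pool.Agent.Lib.MP_c72560_an.Final

open Pool.Agent.Lib.MP_c72560_an

namespace Pool.Agent.Results.MP_c72560_an.AssouadProjectionGap

theorem result : ∃ F : Set (E 3), IsSelfSimilar F ∧ NotInHyperplane F ∧
    AlmostEveryDirection fun v =>
      dimH (projPerp v '' F) < assouadDim (projPerp v '' F) ∧
        assouadDim (projPerp v '' F) < 2 :=
  main

end Pool.Agent.Results.MP_c72560_an.AssouadProjectionGap
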